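import Mathlib

set_option autoImplicit false

namespace Pool.Agent.H.MP_5e7eb0_al

theorem pure_cyc {W : Type} [AddCommGroup W] (hW : ∀ w : W, IsOfFinAddOrder w) (p : ℕ)
    (hp : p.Prime) (h : ∃ w : W, ∀ y, w ≠ (p : ℤ) • y) :
    ∃ w : W, w ≠ 0 ∧ ∀ (c n : ℤ) (y : W), c • w = n • y → ∃ k : ℤ, c • w = n • k • w := by
  obtain ⟨w, hw, hmin⟩ := WellFounded.has_min (InvImage.wf (addOrderOf : W → ℕ) wellFounded_lt)
    {w : W | ∀ y, w ≠ (p : ℤ) • y} h
  have hcop : ∀ (c : ℤ) (y : W), ¬ (p : ℤ) ∣ c → ∀ z, c • w - (p : ℤ) • y ≠ (p : ℤ) • z := by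
    intro c y hc z e
    obtain ⟨u, v, huv⟩ := (Int.prime_iff_natAbs_prime.2 (by simpa using hp) :
      Prime (p : ℤ)).coprime_iff_not_dvd.2 hc
    apply hw (u • w + v • (y + z))
    have e2 : c • w = (p : ℤ) • (y + z) := by rw [smul_add, ← e]; abel
    calc w = (u * p + v * c) • w := by rw [huv, one_smul]
      _ = _ := by rw [add_smul, mul_smul v, e2, smul_add (p : ℤ) (u • w), smul_comm v, mul_comm,
        mul_smul]
  have hm0 : addOrderOf w ≠ 0 := (hW w).addOrderOf_pos.ne'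
  obtain ⟨k, m', hm', hk⟩ := Nat.exists_eq_pow_mul_and_not_dvd hm0 p hp.ne_one
  have hle : ∀ (x : W) (j : ℕ), (∀ y, x ≠ (p : ℤ) • y) → p ^ j • x = 0 → addOrderOf w ≤ p ^ j := by
    intro x j hx hj
    exact (not_lt.1 (hmin x hx)).trans (addOrderOf_le_of_nsmul_eq_zero (pow_pos hp.pos j) hj)
  have h1 : addOrderOf w = p ^ k := by
    have := hle ((m' : ℤ) • w - (p : ℤ) • 0) k (hcop _ _ (by exact_mod_cast hm')) (by
      rw [smul_zero, sub_zero, natCast_zsmul, smul_smul, ← hk, addOrderOf_nsmul_eq_zero])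
    have h2 : 0 < m' := Nat.pos_of_ne_zero (by rintro rfl; simp at hm')
    have h3 : 0 < p ^ k := pow_pos hp.pos k
    nlinarith
  refine ⟨w, fun e => hw 0 (by simp [e]), fun c n y e => ?_⟩
  by_cases hc : c = 0
  · exact ⟨0, by simp [hc]⟩
  obtain ⟨a, ha, hg⟩ := (Nat.dvd_prime_pow hp).1 (Nat.gcd_dvd_right n.natAbs (p ^ k))
  obtain ⟨j, c', hc', hj⟩ := Nat.exists_eq_pow_mul_and_not_dvd (Int.natAbs_ne_zero.2 hc) p hp.ne_one
  have hj' : c = (p : ℤ) ^ j * (c.sign * c') := by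
    conv_lhs => rw [← Int.sign_mul_natAbs c, hj]
    push_cast
    ring
  have hg' : (Int.gcd n ((p : ℤ) ^ k) : ℤ) = (p : ℤ) ^ a := by
    rw [Int.gcd, Int.natAbs_pow, Int.natAbs_natCast, hg]; push_cast; rfl
  by_cases hja : a ≤ j
  · have hb := Int.gcd_eq_gcd_ab n ((p : ℤ) ^ k)
    rw [hg'] at hb
    obtain ⟨d, rfl⟩ := Nat.exists_eq_add_of_le hja
    have h0 : ((p : ℤ) ^ k) • w = 0 := by
      rw [← Nat.cast_pow, natCast_zsmul, ← h1, addOrderOf_nsmul_eq_zero]
    refine ⟨n.gcdA ((p : ℤ) ^ k) * (p ^ d * (c.sign * c')), ?_⟩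
    conv_lhs => rw [hj', pow_add, mul_assoc, hb, add_mul, add_smul, mul_assoc ((p : ℤ) ^ k),
      mul_comm ((p : ℤ) ^ k), mul_smul _ ((p : ℤ) ^ k), h0, smul_zero, add_zero, mul_assoc, mul_smul]
  · exfalso
    obtain ⟨n', hn'⟩ : (p : ℤ) ^ a ∣ n := hg' ▸ Int.gcd_dvd_left _ _
    obtain ⟨d, rfl⟩ := Nat.exists_eq_add_of_lt (not_le.1 hja)
    have h2 := hle ((c.sign * c') • w - (p : ℤ) • ((p : ℤ) ^ d * n') • y) j (hcop _ _ (by
      intro hd
      have := Int.natAbs_dvd_natAbs.2 hd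
      rw [Int.natAbs_mul, Int.natAbs_sign_of_ne_zero hc] at this
      exact hc' (by simpa using this))) (by
      rw [← natCast_zsmul, smul_sub, smul_smul, smul_smul, smul_smul, Nat.cast_pow, ← hj', e, hn',
        sub_eq_zero]
      congr 1
      ring)
    have h3 : p ^ j < p ^ k := Nat.pow_lt_pow_right hp.one_lt (by omega)
    omega

def PI {V : Type} [AddCommGroup V] (S : Set V) : Prop :=
  ∀ c : V →₀ ℤ, (c.support : Set V) ⊆ S → ∀ (n : ℤ) (y : V), (c.sum fun s k => k • s) = n • y →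
    ∀ s, ∃ k : ℤ, c s • s = n • k • s

theorem basic {V : Type} [AddCommGroup V] (hV : ∀ v : V, IsOfFinAddOrder v) :
    ∃ S : Set V, PI S ∧ ∀ n : ℕ, n ≠ 0 → ∀ x : V, ∃ y, x - (n : ℤ) • y ∈ Submodule.span ℤ S := by
  classical
  obtain ⟨S, -, hS⟩ := zorn_subset_nonempty {S : Set V | PI S} (fun c hc hch hne => by
    refine ⟨⋃₀ c, fun f hf => ?_, fun s hs => Set.subset_sUnion_of_mem hs⟩
    obtain ⟨t, ht, hft⟩ := DirectedOn.exists_mem_subset_of_finset_subset_biUnion
      (f := fun t : Set V => t) hne hch.directedOn (s := f.support) (by rwa [← Set.sUnion_eq_biUnion])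
    exact hc ht f hft) ∅ (fun f hf n y _ s => ⟨0, by
      have : f s = 0 := by
        by_contra h
        exact hf (Finsupp.mem_support_iff.2 h)
      simp [this]⟩)
  have hprime : ∀ p : ℕ, p.Prime → ∀ x : V, ∃ y, x - (p : ℤ) • y ∈ Submodule.span ℤ S := by
    intro p hp
    by_contra hcon
    push Not at hcon
    obtain ⟨x₀, hx₀⟩ := hcon
    let π := (Submodule.span ℤ S).mkQ
    obtain ⟨w, hw0, hw⟩ := pure_cyc (W := V ⧸ Submodule.span ℤ S) (fun w => by
      obtain ⟨v, rfl⟩ := (Submodule.span ℤ S).mkQ_surjective w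
      exact π.toAddMonoidHom.isOfFinAddOrder (hV v)) p hp ⟨π x₀, fun y e => by
        obtain ⟨v, rfl⟩ := (Submodule.span ℤ S).mkQ_surjective y
        exact hx₀ v ((Submodule.Quotient.eq _).1 (by simpa [π] using e))⟩
    obtain ⟨x, rfl⟩ := (Submodule.span ℤ S).mkQ_surjective w
    have hker : ∀ v, π v = 0 ↔ v ∈ Submodule.span ℤ S := fun v => Submodule.Quotient.mk_eq_zero _
    obtain ⟨c, hc1, hc2⟩ := Submodule.mem_span_set.1 ((hker ((addOrderOf (π x) : ℤ) • x)).1 (by
      rw [map_zsmul, natCast_zsmul, addOrderOf_nsmul_eq_zero]))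
    choose k hk using hS.prop c hc1 _ x hc2
    let b : V := ∑ s ∈ c.support, k s • s
    have hb : b ∈ Submodule.span ℤ S :=
      Submodule.sum_mem _ fun s hs => Submodule.smul_mem _ _ (Submodule.subset_span (hc1 hs))
    have hx' : (addOrderOf (π x) : ℤ) • (x - b) = 0 := by
      rw [smul_sub, ← hc2, Finset.smul_sum, sub_eq_zero]
      exact Finset.sum_congr rfl fun s _ => hk s
    have hπ : π (x - b) = π x := by rw [map_sub, (hker b).2 hb, sub_zero]
    have hins : PI (insert (x - b) S) := by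
      intro f hf n y e
      have hf' : ((f.erase (x - b)).support : Set V) ⊆ S := by
        intro s hs
        rw [Finsupp.support_erase, Finset.mem_coe, Finset.mem_erase] at hs
        exact (hf hs.2).resolve_left hs.1
      have e1 : ((f.erase (x - b)).sum fun s k => k • s) + f (x - b) • (x - b) = n • y := by
        rw [← e]
        conv_rhs => rw [← Finsupp.erase_add_single (x - b) f]
        rw [Finsupp.sum_add_index' (by simp) (fun _ _ _ => add_smul _ _ _),
          Finsupp.sum_single_index (by simp)]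
      have e2 := congrArg π e1
      rw [map_add, (hker _).2 (Submodule.mem_span_set.2 ⟨_, hf', rfl⟩), zero_add, map_zsmul,
        map_zsmul, hπ] at e2
      obtain ⟨j, hj⟩ := hw _ _ _ e2
      have e3 : f (x - b) • (x - b) = n • j • (x - b) := by
        have h1 : (f (x - b) - n * j) • π x = 0 := by
          rw [sub_smul, mul_smul, sub_eq_zero]; exact hj
        obtain ⟨t, ht⟩ := addOrderOf_dvd_iff_zsmul_eq_zero.2 h1
        rw [← mul_smul, ← sub_eq_zero, ← sub_smul, ht, mul_comm, mul_smul, hx', smul_zero]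
      intro s
      by_cases hs : s = x - b
      · rw [hs]; exact ⟨j, e3⟩
      · have := hS.prop _ hf' n (y - j • (x - b)) (by rw [smul_sub, ← e1, e3]; abel) s
        rwa [Finsupp.erase_ne hs] at this
    have := hS.eq_of_subset hins (Set.subset_insert _ _)
    apply hw0
    rw [← hπ, hker]
    exact Submodule.subset_span (by rw [this]; exact Set.mem_insert _ _)
  refine ⟨S, hS.prop, fun n => ?_⟩
  induction n using Nat.recOnMul with
  | zero => exact fun h => absurd rfl h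
  | one => exact fun _ x => ⟨x, by simp⟩
  | prime p hp => exact fun _ => hprime p hp
  | mul a b ha hb =>
    intro h x
    obtain ⟨y, hy⟩ := ha (left_ne_zero_of_mul h) x
    obtain ⟨z, hz⟩ := hb (right_ne_zero_of_mul h) y
    refine ⟨z, ?_⟩
    convert Submodule.add_mem _ hy (Submodule.smul_mem _ (a : ℤ) hz) using 1
    push_cast
    rw [smul_sub, mul_smul]
    abel

theorem PI.lift {V A : Type} [AddCommGroup V] [AddCommGroup A] {S : Set V} (hS : PI S) (a : V → A)
    (ha : ∀ s ∈ S, ∀ n : ℤ, n • s = 0 → n • a s = 0) :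
    ∃ φ : V → A, ∀ c : V →₀ ℤ, (c.support : Set V) ⊆ S →
      φ (c.sum fun s k => k • s) = c.sum fun s k => k • a s := by
  classical
  refine ⟨fun v => if h : ∃ c : V →₀ ℤ, (c.support : Set V) ⊆ S ∧ (c.sum fun s k => k • s) = v
    then h.choose.sum fun s k => k • a s else 0, fun c hc => ?_⟩
  have h : ∃ c' : V →₀ ℤ, (c'.support : Set V) ⊆ S ∧
    (c'.sum fun s k => k • s) = c.sum fun s k => k • s := ⟨c, hc, rfl⟩
  simp only [dif_pos h]
  obtain ⟨h1, h2⟩ := h.choose_spec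
  generalize h.choose = c' at h1 h2
  have h3 : ((c' - c).support : Set V) ⊆ S := fun s hs =>
    (Finset.mem_union.1 (Finsupp.support_sub hs)).elim (h1 ·) (hc ·)
  have h4 := hS (c' - c) h3 0 0 (by
    rw [Finsupp.sum_sub_index (fun _ _ _ => sub_smul _ _ _), h2]; simp)
  rw [← sub_eq_zero, ← Finsupp.sum_sub_index (fun _ _ _ => sub_smul _ _ _)]
  refine Finset.sum_eq_zero fun s hs => ha s (h3 hs) _ ?_
  obtain ⟨k, hk⟩ := h4 s
  simpa using hk

theorem PI.lift' {V A : Type} [AddCommGroup V] [AddCommGroup A] {S : Set V} (hS : PI S) (a : V → A)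
    (ha : ∀ s ∈ S, ∀ n : ℤ, n • s = 0 → n • a s = 0) :
    ∃ φ : Submodule.span ℤ S →+ A, ∀ (c : V →₀ ℤ) (v : Submodule.span ℤ S),
      (c.support : Set V) ⊆ S → (c.sum fun s k => k • s) = v →
      φ v = c.sum fun s k => k • a s := by
  classical
  obtain ⟨φ, hφ⟩ := hS.lift a ha
  refine ⟨AddMonoidHom.mk' (fun v => φ v) fun v w => ?_, fun c v hc e => ?_⟩
  · obtain ⟨c, c1, c2⟩ := Submodule.mem_span_set.1 v.2
    obtain ⟨d, d1, d2⟩ := Submodule.mem_span_set.1 w.2
    have h3 : ((c + d).support : Set V) ⊆ S := fun s hs =>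
      (Finset.mem_union.1 (Finsupp.support_add hs)).elim (c1 ·) (d1 ·)
    have h4 := hφ _ h3
    rw [Finsupp.sum_add_index' (by simp) (fun _ _ _ => add_smul _ _ _),
      Finsupp.sum_add_index' (by simp) (fun _ _ _ => add_smul _ _ _), ← hφ c c1, ← hφ d d1,
      c2, d2] at h4
    exact h4
  · rw [← hφ c hc, e]; rfl

end Pool.Agent.H.MP_5e7eb0_al
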